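import Pool.Agent.MP_353077_gt.Cs.Main

namespace Pool.Agent.Results.MP_353077_gt.CountableSplitting

/-- Let a compact Hausdorff space be splittable over the class of Gulko or Corson compacta. Then
for every choice of splitting maps into arbitrary T1 spaces, countably many of the chosen maps
separate the points. -/
theorem result :
  ∀ (X : Type) [TopologicalSpace X] [CompactSpace X] [T2Space X],
    (∀ A : Set X, ∃ (Y : Type) (_ : TopologicalSpace Y), CompactSpace Y ∧ T2Space Y ∧
      ((∃ N : ℕ → Set {g : Y → ℝ // Continuous g},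
        ∀ g : {g : Y → ℝ // Continuous g}, ∃ C : Set {g : Y → ℝ // Continuous g},
          IsCompact C ∧ g ∈ C ∧
          ∀ U : Set {g : Y → ℝ // Continuous g}, IsOpen U → C ⊆ U →
            ∃ n : ℕ, C ⊆ N n ∧ N n ⊆ U) ∨
        ∃ (Γ : Type) (e : Y → Γ → ℝ), Topology.IsEmbedding e ∧
          ∀ y : Y, {γ : Γ | e y γ ≠ 0}.Countable) ∧
      ∃ f : X → Y, Continuous f ∧ f ⁻¹' (f '' A) = A) →
    ∀ (Z : Set X → Type) [∀ A, TopologicalSpace (Z A)] [∀ A, T1Space (Z A)]
      (f : ∀ A : Set X, X → Z A), (∀ A, Continuous (f A) ∧ f A ⁻¹' (f A '' A) = A) →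
      ∃ A : ℕ → Set X, ∀ x y : X, (∀ n, f (A n) x = f (A n) y) → x = y :=
  fun _ _ _ _ h => (Pool.Agent.MP_353077_gt.Cs.split_of_hyp h).seq_maps

end Pool.Agent.Results.MP_353077_gt.CountableSplitting
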