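import Pool.Agent.Mg.F353077.G6837e2

namespace Pool.Agent.Results.MP_353077_gt.SplittableIsGulko

/-- A compact Hausdorff space that is splittable over the class of Gulko compacta is itself
Gulko compact: its space of continuous real functions with the pointwise topology has a
countable network modulo a compact cover. -/
theorem result :
  ∀ (X : Type) [TopologicalSpace X] [CompactSpace X] [T2Space X],
    (∀ A : Set X, ∃ (Y : Type) (_ : TopologicalSpace Y), CompactSpace Y ∧ T2Space Y ∧
      (∃ N : ℕ → Set {g : Y → ℝ // Continuous g},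
        ∀ g : {g : Y → ℝ // Continuous g}, ∃ C : Set {g : Y → ℝ // Continuous g},
          IsCompact C ∧ g ∈ C ∧
          ∀ U : Set {g : Y → ℝ // Continuous g}, IsOpen U → C ⊆ U →
            ∃ n : ℕ, C ⊆ N n ∧ N n ⊆ U) ∧
      ∃ f : X → Y, Continuous f ∧ f ⁻¹' (f '' A) = A) →
    ∃ N : ℕ → Set {g : X → ℝ // Continuous g},
      ∀ g : {g : X → ℝ // Continuous g}, ∃ C : Set {g : X → ℝ // Continuous g},
        IsCompact C ∧ g ∈ C ∧
        ∀ U : Set {g : X → ℝ // Continuous g}, IsOpen U → C ⊆ U →
          ∃ n : ℕ, C ⊆ N n ∧ N n ⊆ U :=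
  fun _ _ _ _ h => Pool.Agent.MP_353077_gt.gul_of_split h

end Pool.Agent.Results.MP_353077_gt.SplittableIsGulko
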